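import Mathlib

/-!
# Graphical cakes: full maximin share can be impossible with additive valuations (MP_ee2dc8_co, Q2)

The cake of a finite graph is its geometric realization.  We exhibit a connected graph, three
agents with additive (continuous, monotone, nonnegative) valuations, such that no allocation of
pairwise disjoint connected pieces gives each agent her 1-out-of-3 maximin share, or even more
than `39/40` of it.
-/

namespace Pool.Agent.Results.MP_ee2dc8_co.NoMmsAllocation

open Set MeasureTheory Topology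

noncomputable section

set_option linter.unusedSectionVars false

variable {V : Type} [Fintype V] [DecidableEq V]

/-- The point with parameter `t ∈ [0,1]` on the edge from `u` to `v`
(in the geometric realization of the graph inside `ℝ^V`; the vertex `u` is the unit vector
`e_u`). -/
def pt (u v : V) (t : ℝ) : V → ℝ := (1 - t) • Pi.single u (1 : ℝ) + t • Pi.single v (1 : ℝ)

/-- The cake: the vertices and the closed edges of `G`. -/
def cake (G : SimpleGraph V) : Set (V → ℝ) :=
  {x | ∃ u v, (u = v ∨ G.Adj u v) ∧ ∃ t ∈ Icc (0 : ℝ) 1, x = pt u v t}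

/-- An interval (open, closed, half-open, possibly degenerate) lying in an edge of `G`. -/
def IsInterval (G : SimpleGraph V) (s : Set (V → ℝ)) : Prop :=
  ∃ u v, (u = v ∨ G.Adj u v) ∧ ∃ I : Set ℝ, I ⊆ Icc 0 1 ∧ I.OrdConnected ∧ s = pt u v '' I

/-- A piece: a finite union of intervals lying in edges of `G`. -/
def IsPiece (G : SimpleGraph V) (X : Set (V → ℝ)) : Prop :=
  ∃ F : Set (Set (V → ℝ)), F.Finite ∧ (∀ s ∈ F, IsInterval G s) ∧ X = ⋃₀ F

/-- A connected set: any two of its points are joined by a path staying inside it. -/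
def IsConn (X : Set (V → ℝ)) : Prop := ∀ x ∈ X, ∀ y ∈ X, JoinedIn X x y

/-- The length of the part of `X` lying on the edge `uv`. -/
def edgeLen (u v : V) (X : Set (V → ℝ)) : ℝ :=
  (volume {t : ℝ | t ∈ Icc (0 : ℝ) 1 ∧ pt u v t ∈ X}).toReal

open Classical in
/-- The total length of `X` (every edge is counted once, as half of its two orientations). -/
def len (G : SimpleGraph V) (X : Set (V → ℝ)) : ℝ :=
  (1 / 2) * ∑ u, ∑ v, if G.Adj u v then edgeLen u v X else 0

/-- Additive valuations on the pieces of the cake: nonnegative, monotone, continuous (pieces whose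
symmetric difference has small length have almost the same value) and additive. -/
structure IsAdditiveValuation (G : SimpleGraph V) (v : Set (V → ℝ) → ℝ) : Prop where
  nonneg : ∀ X, IsPiece G X → 0 ≤ v X
  mono : ∀ X Y, IsPiece G X → IsPiece G Y → X ⊆ Y → v X ≤ v Y
  cont : ∀ ε > 0, ∃ δ > 0, ∀ X Y, IsPiece G X → IsPiece G Y →
    len G (symmDiff X Y) < δ → |v X - v Y| < ε
  add : ∀ X Y, IsPiece G X → IsPiece G Y → Disjoint X Y → v (X ∪ Y) = v X + v Y

/-- An allocation: connected pieces, one for each agent, pairwise disjoint. -/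
def IsAllocation (G : SimpleGraph V) {n : ℕ} (A : Fin n → Set (V → ℝ)) : Prop :=
  (∀ i, IsPiece G (A i)) ∧ (∀ i, IsConn (A i)) ∧ ∀ i j, i ≠ j → Disjoint (A i) (A j)

/-- A partition of the cake into `k` pairwise disjoint connected pieces. -/
def IsPartition (G : SimpleGraph V) {k : ℕ} (P : Fin k → Set (V → ℝ)) : Prop :=
  IsAllocation G P ∧ ⋃ j, P j = cake G

/-- The 1-out-of-`k` maximin share of a valuation. -/
def mms (G : SimpleGraph V) (v : Set (V → ℝ) → ℝ) (k : ℕ) : ℝ :=
  sSup {m | ∃ P : Fin k → Set (V → ℝ), IsPartition G P ∧ ∀ j, m ≤ v (P j)}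

/-! ### Elementary facts -/

lemma pt_continuous (u v : V) : Continuous (pt u v) := by
  unfold pt; fun_prop

lemma pt_apply (u v w : V) (t : ℝ) :
    pt u v t w = (1 - t) * (if w = u then 1 else 0) + t * (if w = v then 1 else 0) := by
  simp [pt, Pi.single_apply]

lemma pt_symm (u v : V) (t : ℝ) : pt u v t = pt v u (1 - t) := by
  ext w; simp only [pt_apply]; ring

lemma pt_inj {u v : V} (h : u ≠ v) : Function.Injective (pt u v) := by
  intro s t hst
  have := congrFun hst v
  simp only [pt_apply] at this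
  simp [h.symm] at this
  exact this

lemma interval_measurable {G : SimpleGraph V} {s : Set (V → ℝ)} (h : IsInterval G s) :
    MeasurableSet s := by
  obtain ⟨u, v, huv, I, hI, hI2, rfl⟩ := h
  by_cases hu : u = v
  · subst hu
    have : pt u u '' I ⊆ {pt u u 0} := by
      rintro _ ⟨t, _, rfl⟩
      simp only [mem_singleton_iff]
      ext w; simp only [pt_apply]; ring
    exact ((Set.finite_singleton _).subset this).measurableSet
  · exact hI2.measurableSet.image_of_continuousOn_injOn (pt_continuous u v).continuousOn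
      (pt_inj hu).injOn

lemma piece_measurable {G : SimpleGraph V} {X : Set (V → ℝ)} (h : IsPiece G X) :
    MeasurableSet X := by
  obtain ⟨F, hF, hF2, rfl⟩ := h
  exact MeasurableSet.sUnion hF.countable (fun s hs => interval_measurable (hF2 s hs))

lemma edgeLen_nonneg (u v : V) (X : Set (V → ℝ)) : 0 ≤ edgeLen u v X := ENNReal.toReal_nonneg

lemma edgeSet_ne_top (u v : V) (X : Set (V → ℝ)) :
    volume {t : ℝ | t ∈ Icc (0 : ℝ) 1 ∧ pt u v t ∈ X} ≠ ⊤ := by
  have : volume {t : ℝ | t ∈ Icc (0 : ℝ) 1 ∧ pt u v t ∈ X} ≤ volume (Icc (0 : ℝ) 1) :=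
    measure_mono (fun _ ht => ht.1)
  have h2 : volume (Icc (0 : ℝ) 1) < ⊤ := by simp
  exact (this.trans_lt h2).ne

lemma edgeLen_mono (u v : V) {X Y : Set (V → ℝ)} (h : X ⊆ Y) : edgeLen u v X ≤ edgeLen u v Y :=
  ENNReal.toReal_mono (edgeSet_ne_top u v Y) (measure_mono (fun t ht => ⟨ht.1, h ht.2⟩))

lemma edgeLen_le_one (u v : V) (X : Set (V → ℝ)) : edgeLen u v X ≤ 1 := by
  have : volume {t : ℝ | t ∈ Icc (0 : ℝ) 1 ∧ pt u v t ∈ X} ≤ volume (Icc (0 : ℝ) 1) :=
    measure_mono (fun _ ht => ht.1)
  have h2 : volume (Icc (0 : ℝ) 1) = 1 := by simp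
  unfold edgeLen
  rw [h2] at this
  simpa using ENNReal.toReal_mono ENNReal.one_ne_top this

lemma edgeLen_union (u v : V) {X Y : Set (V → ℝ)} (hY : MeasurableSet Y)
    (h : Disjoint X Y) : edgeLen u v (X ∪ Y) = edgeLen u v X + edgeLen u v Y := by
  unfold edgeLen
  rw [← ENNReal.toReal_add (edgeSet_ne_top u v X) (edgeSet_ne_top u v Y)]
  congr 1
  rw [← measure_union]
  · congr 1
    ext t; simp only [mem_ofPred_eq, mem_union]; tauto
  · rw [Set.disjoint_left]
    rintro t ⟨_, h1⟩ ⟨_, h2⟩
    exact Set.disjoint_left.mp h h1 h2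
  · exact measurableSet_Icc.inter ((pt_continuous u v).measurable hY)

lemma edgeLen_le_add_symmDiff (u v : V) (X Y : Set (V → ℝ)) :
    edgeLen u v X ≤ edgeLen u v Y + edgeLen u v (symmDiff X Y) := by
  unfold edgeLen
  rw [← ENNReal.toReal_add (edgeSet_ne_top u v Y) (edgeSet_ne_top u v _)]
  refine ENNReal.toReal_mono (ENNReal.add_ne_top.mpr ⟨edgeSet_ne_top u v Y, edgeSet_ne_top u v _⟩) ?_
  refine (measure_mono ?_).trans (measure_union_le _ _)
  rintro t ⟨h1, h2⟩
  by_cases hY : pt u v t ∈ Y
  · exact Or.inl ⟨h1, hY⟩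
  · exact Or.inr ⟨h1, Or.inl ⟨h2, hY⟩⟩

/-! ### The graph and the agents -/

/-- The vertices: nine hubs `inl g` and nine leaves `inr g`. -/
abbrev W := Fin 9 ⊕ Fin 9

/-- The complete graph on the hubs, with a pendant edge `inl g – inr g` at every hub. -/
def Gr : SimpleGraph W where
  Adj x y := match x, y with
    | Sum.inl a, Sum.inl b => a ≠ b
    | Sum.inl a, Sum.inr b => a = b
    | Sum.inr a, Sum.inl b => a = b
    | Sum.inr _, Sum.inr _ => False
  symm := ⟨by
    rintro (a | a) (b | b) h
    · exact Ne.symm h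
    · exact Eq.symm h
    · exact Eq.symm h
    · exact h⟩
  loopless := ⟨by
    rintro (a | a) h
    · exact h rfl
    · exact h⟩

/-- The values of the nine pendant edges for the three agents. -/
def val (i : Fin 3) (g : Fin 9) : ℕ :=
  match i with
  | 0 => ![1, 16, 23, 26, 4, 10, 12, 19, 9] g
  | 1 => ![1, 16, 22, 26, 4, 9, 13, 20, 9] g
  | 2 => ![1, 15, 23, 25, 4, 10, 13, 20, 9] g

/-- The bundle of the pendant edge `g` in the fair partition of agent `i`. -/
def bundle (i : Fin 3) (g : Fin 9) : Fin 3 :=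
  match i with
  | 0 => ![0, 0, 0, 1, 1, 1, 2, 2, 2] g
  | 1 => ![0, 1, 2, 0, 1, 2, 0, 1, 2] g
  | 2 => ![0, 1, 2, 1, 2, 0, 2, 0, 0] g

/-- The valuation of agent `i`: pendant edge `g` has value `val i g`, uniformly distributed. -/
def agent (i : Fin 3) (X : Set (W → ℝ)) : ℝ :=
  ∑ g : Fin 9, (val i g : ℝ) * edgeLen (Sum.inl g : W) (Sum.inr g) X

/-! ### The agents have additive valuations -/

lemma sum_pendant_le (Z : Set (W → ℝ)) :
    ∑ g : Fin 9, edgeLen (Sum.inl g : W) (Sum.inr g) Z ≤ 2 * len Gr Z := by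
  classical
  have h1 : 2 * len Gr Z = ∑ u, ∑ v, if Gr.Adj u v then edgeLen u v Z else 0 := by
    unfold len
    rw [← mul_assoc]
    norm_num
  rw [h1, Fintype.sum_sum_type]
  have hnn : ∀ u v : W, 0 ≤ (if Gr.Adj u v then edgeLen u v Z else 0) := by
    intro u v
    split_ifs
    · exact edgeLen_nonneg _ _ _
    · exact le_rfl
  have h2 : 0 ≤ ∑ a : Fin 9, ∑ v, (if Gr.Adj (Sum.inr a) v then edgeLen (Sum.inr a) v Z else 0) :=
    Finset.sum_nonneg (fun a _ => Finset.sum_nonneg (fun v _ => hnn _ _))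
  refine le_trans ?_ (le_add_of_nonneg_right h2)
  refine Finset.sum_le_sum (fun g _ => ?_)
  have h3 := Finset.single_le_sum (f := fun v : W =>
    (if Gr.Adj (Sum.inl g) v then edgeLen (Sum.inl g) v Z else 0))
    (fun v _ => hnn _ v) (Finset.mem_univ (Sum.inr g : W))
  have h4 : Gr.Adj (Sum.inl g) (Sum.inr g) := rfl
  simpa [h4] using h3

lemma val_le (i : Fin 3) (g : Fin 9) : val i g ≤ 26 := by
  revert i g; decide

lemma agent_additive (i : Fin 3) : IsAdditiveValuation Gr (agent i) where
  nonneg X _ := Finset.sum_nonneg (fun g _ => mul_nonneg (Nat.cast_nonneg _) (edgeLen_nonneg _ _ _))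
  mono X Y _ _ h := Finset.sum_le_sum (fun g _ =>
    mul_le_mul_of_nonneg_left (edgeLen_mono _ _ h) (Nat.cast_nonneg _))
  cont := by
    intro ε hε
    refine ⟨ε / 52, by positivity, ?_⟩
    intro X Y _ _ hXY
    have key : ∀ X Y : Set (W → ℝ), agent i X - agent i Y ≤ 52 * len Gr (symmDiff X Y) := by
      intro X Y
      have h1 : agent i X - agent i Y ≤
          ∑ g : Fin 9, 26 * edgeLen (Sum.inl g : W) (Sum.inr g) (symmDiff X Y) := by
        unfold agent
        rw [← Finset.sum_sub_distrib]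
        refine Finset.sum_le_sum (fun g _ => ?_)
        have h2 := edgeLen_le_add_symmDiff (Sum.inl g : W) (Sum.inr g) X Y
        have h3 : (val i g : ℝ) ≤ 26 := by exact_mod_cast val_le i g
        have h4 : (0 : ℝ) ≤ (val i g : ℝ) := Nat.cast_nonneg _
        have h5 := edgeLen_nonneg (Sum.inl g : W) (Sum.inr g) (symmDiff X Y)
        nlinarith
      rw [← Finset.mul_sum] at h1
      have h6 := sum_pendant_le (symmDiff X Y)
      linarith
    have hXY' := key X Y
    have hYX := key Y X
    rw [symmDiff_comm] at hYX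
    rw [abs_lt]
    constructor <;> linarith
  add := by
    intro X Y _ hY h
    unfold agent
    rw [← Finset.sum_add_distrib]
    refine Finset.sum_congr rfl (fun g _ => ?_)
    rw [edgeLen_union _ _ (piece_measurable hY) h]
    ring

/-! ### The cells of the hubs -/

/-- The parameters of the part of the edge `g b` that belongs to the cell of `g`. -/
def J (g b : Fin 9) : Set ℝ := if g < b then Icc 0 (1 / 2) else Ico 0 (1 / 2)

/-- The arcs of the cell of `g`. -/
def arc (g b : Fin 9) : Set (W → ℝ) :=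
  if b = g then pt (Sum.inl g : W) (Sum.inr g) '' Icc 0 1
  else pt (Sum.inl g : W) (Sum.inl b) '' J g b

/-- The cell of the hub `g`: its pendant edge and its halves of the edges to the other hubs. -/
def cell (g : Fin 9) : Set (W → ℝ) := ⋃ b, arc g b

lemma J_subset (g b : Fin 9) : J g b ⊆ Icc 0 1 := by
  unfold J
  split_ifs
  · exact Icc_subset_Icc le_rfl (by norm_num)
  · exact fun t ht => ⟨ht.1, by linarith [ht.2]⟩

lemma J_zero (g b : Fin 9) : (0 : ℝ) ∈ J g b := by
  unfold J
  split_ifs <;> simp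

lemma J_ord (g b : Fin 9) : (J g b).OrdConnected := by
  unfold J
  split_ifs
  · exact ordConnected_Icc
  · exact ordConnected_Ico

lemma arc_interval (g b : Fin 9) : IsInterval Gr (arc g b) := by
  unfold arc
  split_ifs with h
  · exact ⟨Sum.inl g, Sum.inr g, Or.inr rfl, Icc 0 1, subset_rfl, ordConnected_Icc, rfl⟩
  · exact ⟨Sum.inl g, Sum.inl b, Or.inr (Ne.symm h), J g b, J_subset g b, J_ord g b, rfl⟩

/-- The weight of the star of the hub `h`. -/
def m (h : Fin 9) (x : W → ℝ) : ℝ := x (Sum.inl h) + x (Sum.inr h)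

lemma m_pendant (h g : Fin 9) (t : ℝ) :
    m h (pt (Sum.inl g : W) (Sum.inr g) t) = if h = g then 1 else 0 := by
  simp only [m, pt_apply, Sum.inl.injEq, Sum.inr.injEq, reduceCtorEq, if_false]
  split_ifs <;> ring

lemma m_hub (h g b : Fin 9) (t : ℝ) :
    m h (pt (Sum.inl g : W) (Sum.inl b) t) =
      (1 - t) * (if h = g then 1 else 0) + t * (if h = b then 1 else 0) := by
  simp only [m, pt_apply, Sum.inl.injEq, reduceCtorEq, if_false]
  ring

lemma cell_prop {g : Fin 9} {x : W → ℝ} (hx : x ∈ cell g) :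
    (∀ h, h < g → m h x < m g x) ∧ ∀ h, g < h → m h x ≤ m g x := by
  obtain ⟨b, hb⟩ := mem_iUnion.mp hx
  unfold arc at hb
  split_ifs at hb with hbg
  · obtain ⟨t, ht, rfl⟩ := hb
    constructor
    · intro h hh
      rw [m_pendant, m_pendant, if_neg hh.ne, if_pos rfl]
      norm_num
    · intro h hh
      rw [m_pendant, m_pendant, if_neg hh.ne', if_pos rfl]
      norm_num
  · obtain ⟨t, ht, rfl⟩ := hb
    constructor
    · intro h hh
      rw [m_hub, m_hub, if_neg hh.ne, if_pos rfl, if_neg (Ne.symm hbg)]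
      have htJ := ht
      unfold J at ht
      by_cases hhb : h = b
      · subst hhb
        rw [if_neg (not_lt.mpr hh.le)] at ht
        have := ht.2
        simp only [if_true]
        linarith
      · rw [if_neg hhb]
        have := (J_subset g b htJ).2
        split_ifs at ht
        · have := ht.2
          linarith
        · have := ht.2
          linarith
    · intro h hh
      rw [m_hub, m_hub, if_neg hh.ne', if_pos rfl, if_neg (Ne.symm hbg)]
      unfold J at ht
      have : t ≤ 1 / 2 := by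
        split_ifs at ht
        · exact ht.2
        · exact ht.2.le
      have h0 : 0 ≤ t := by
        split_ifs at ht
        · exact ht.1
        · exact ht.1
      split_ifs <;> linarith

lemma cell_disjoint {g h : Fin 9} (hgh : g ≠ h) : Disjoint (cell g) (cell h) := by
  rw [Set.disjoint_left]
  intro x hg hh
  have h1 := cell_prop hg
  have h2 := cell_prop hh
  rcases lt_or_gt_of_ne hgh with h | h
  · linarith [h1.2 _ h, h2.1 _ h]
  · linarith [h1.1 _ h, h2.2 _ h]

lemma cell_subset (g : Fin 9) : cell g ⊆ cake Gr := by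
  intro x hx
  obtain ⟨b, hb⟩ := mem_iUnion.mp hx
  obtain ⟨u, v, huv, I, hI, _, he⟩ := arc_interval g b
  rw [he] at hb
  obtain ⟨t, ht, rfl⟩ := hb
  exact ⟨u, v, huv, t, hI ht, rfl⟩

lemma pendant_mem_cell (g : Fin 9) {t : ℝ} (ht : t ∈ Icc (0 : ℝ) 1) :
    pt (Sum.inl g : W) (Sum.inr g) t ∈ cell g := by
  refine mem_iUnion.mpr ⟨g, ?_⟩
  unfold arc
  rw [if_pos rfl]
  exact ⟨t, ht, rfl⟩

lemma hub_mem_cell {g b : Fin 9} (h : b ≠ g) {t : ℝ} (ht : t ∈ J g b) :
    pt (Sum.inl g : W) (Sum.inl b) t ∈ cell g := by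
  refine mem_iUnion.mpr ⟨b, ?_⟩
  unfold arc
  rw [if_neg h]
  exact ⟨t, ht, rfl⟩

lemma pt_same (u : W) (t : ℝ) : pt u u t = pt u u 0 := by
  ext w; simp only [pt_apply]; ring

lemma pt_zero (u v w : W) : pt u v 0 = pt u w 0 := by
  ext z; simp only [pt_apply]; ring

lemma hubs_edge {g b : Fin 9} (h : g ≠ b) {t : ℝ} (ht : t ∈ Icc (0 : ℝ) 1) :
    pt (Sum.inl g : W) (Sum.inl b) t ∈ cell g ∪ cell b := by
  rcases lt_trichotomy t (1 / 2) with h1 | h1 | h1
  · left
    refine hub_mem_cell h.symm ?_
    unfold J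
    split_ifs
    · exact ⟨ht.1, h1.le⟩
    · exact ⟨ht.1, h1⟩
  · rcases lt_or_gt_of_ne h with hgb | hgb
    · left
      refine hub_mem_cell h.symm ?_
      unfold J
      rw [if_pos hgb]
      exact ⟨ht.1, h1.le⟩
    · right
      rw [pt_symm]
      refine hub_mem_cell h ?_
      unfold J
      rw [if_pos hgb]
      constructor <;> linarith
  · right
    rw [pt_symm]
    refine hub_mem_cell h ?_
    unfold J
    split_ifs
    · constructor <;> linarith [ht.2]
    · constructor <;> linarith [ht.2]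

lemma cake_eq : ⋃ g, cell g = cake Gr := by
  apply subset_antisymm
  · exact iUnion_subset cell_subset
  · rintro x ⟨u, v, huv, t, ht, rfl⟩
    rw [mem_iUnion]
    rcases u with a | a <;> rcases v with b | b
    · rcases huv with h | h
      · have h' : a = b := Sum.inl.inj h
        subst h'
        refine ⟨a, ?_⟩
        rw [pt_same, pt_zero _ _ (Sum.inr a)]
        exact pendant_mem_cell a ⟨le_rfl, zero_le_one⟩
      · have h' : a ≠ b := h
        rcases hubs_edge h' ht with h1 | h1
        · exact ⟨a, h1⟩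
        · exact ⟨b, h1⟩
    · rcases huv with h | h
      · exact absurd h (by simp)
      · have h' : a = b := h
        subst h'
        exact ⟨a, pendant_mem_cell a ht⟩
    · rcases huv with h | h
      · exact absurd h (by simp)
      · have h' : a = b := h
        subst h'
        refine ⟨a, ?_⟩
        rw [pt_symm]
        exact pendant_mem_cell a ⟨by linarith [ht.2], by linarith [ht.1]⟩
    · rcases huv with h | h
      · have h' : a = b := Sum.inr.inj h
        subst h'
        refine ⟨a, ?_⟩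
        rw [pt_same, pt_zero _ _ (Sum.inl a), pt_symm]
        exact pendant_mem_cell a ⟨by norm_num, by norm_num⟩
      · exact absurd h (fun h => h)

/-! ### The fair partitions -/

/-- The fair partition of agent `i`. -/
def part (i : Fin 3) (j : Fin 3) : Set (W → ℝ) := ⋃ g ∈ {g | bundle i g = j}, cell g

lemma part_piece (i j : Fin 3) : IsPiece Gr (part i j) := by
  refine ⟨(fun p : Fin 9 × Fin 9 => arc p.1 p.2) '' {p | bundle i p.1 = j},
    (Set.toFinite _).image _, ?_, ?_⟩
  · rintro _ ⟨p, _, rfl⟩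
    exact arc_interval _ _
  · ext x
    simp only [part, cell, mem_iUnion, mem_ofPred_eq, sUnion_image, Prod.exists, exists_prop]
    constructor
    · rintro ⟨g, hg, b, hb⟩
      exact ⟨g, b, hg, hb⟩
    · rintro ⟨g, b, hg, hb⟩
      exact ⟨g, hg, b, hb⟩

lemma joined_hub {i j : Fin 3} {g : Fin 9} (hg : bundle i g = j) {x : W → ℝ} (hx : x ∈ cell g) :
    JoinedIn (part i j) (pt (Sum.inl g : W) (Sum.inr g) 0) x := by
  have hsub : cell g ⊆ part i j := subset_biUnion_of_mem (u := cell) hg
  obtain ⟨b, hb⟩ := mem_iUnion.mp hx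
  unfold arc at hb
  split_ifs at hb with hbg
  · obtain ⟨t, ht, rfl⟩ := hb
    refine JoinedIn.ofLine (f := fun s => pt (Sum.inl g : W) (Sum.inr g) (s * t)) ?_ (by simp)
      (by simp) ?_
    · exact ((pt_continuous _ _).comp (by fun_prop)).continuousOn
    · rintro _ ⟨s, hs, rfl⟩
      exact hsub (pendant_mem_cell g ⟨mul_nonneg hs.1 ht.1,
        mul_le_one₀ hs.2 ht.1 ht.2⟩)
  · obtain ⟨t, ht, rfl⟩ := hb
    refine JoinedIn.ofLine (f := fun s => pt (Sum.inl g : W) (Sum.inl b) (s * t)) ?_ ?_
      (by simp) ?_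
    · exact ((pt_continuous _ _).comp (by fun_prop)).continuousOn
    · simp only [zero_mul]
      exact pt_zero _ _ _
    · rintro _ ⟨s, hs, rfl⟩
      refine hsub (hub_mem_cell hbg ((J_ord g b).out (J_zero g b) ht ⟨?_, ?_⟩))
      · exact mul_nonneg hs.1 (J_subset g b ht).1
      · exact mul_le_of_le_one_left (J_subset g b ht).1 hs.2

lemma joined_hubs {i j : Fin 3} {g h : Fin 9} (hg : bundle i g = j) (hh : bundle i h = j) :
    JoinedIn (part i j) (pt (Sum.inl g : W) (Sum.inr g) 0) (pt (Sum.inl h : W) (Sum.inr h) 0) := by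
  by_cases hgh : g = h
  · subst hgh
    refine JoinedIn.refl ?_
    exact (subset_biUnion_of_mem (u := cell) hg) (pendant_mem_cell g ⟨le_rfl, zero_le_one⟩)
  · refine JoinedIn.ofLine (f := fun s => pt (Sum.inl g : W) (Sum.inl h) s) ?_ (pt_zero _ _ _) ?_ ?_
    · exact (pt_continuous _ _).continuousOn
    · change pt (Sum.inl g : W) (Sum.inl h) 1 = _
      rw [pt_symm, sub_self]
      exact pt_zero _ _ _
    · rintro _ ⟨s, hs, rfl⟩
      rcases hubs_edge hgh hs with h1 | h1
      · exact (subset_biUnion_of_mem (u := cell) hg) h1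
      · exact (subset_biUnion_of_mem (u := cell) hh) h1

lemma part_conn (i j : Fin 3) : IsConn (part i j) := by
  intro x hx y hy
  simp only [part, mem_iUnion, mem_ofPred_eq, exists_prop] at hx hy
  obtain ⟨g, hg, hxg⟩ := hx
  obtain ⟨h, hh, hyh⟩ := hy
  exact ((joined_hub hg hxg).symm.trans (joined_hubs hg hh)).trans (joined_hub hh hyh)

lemma part_partition (i : Fin 3) : IsPartition Gr (part i) := by
  refine ⟨⟨part_piece i, part_conn i, ?_⟩, ?_⟩
  · intro j k hjk
    rw [Set.disjoint_left]
    intro x hx hy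
    simp only [part, mem_iUnion, mem_ofPred_eq, exists_prop] at hx hy
    obtain ⟨g, hg, hxg⟩ := hx
    obtain ⟨h, hh, hyh⟩ := hy
    by_cases hgh : g = h
    · subst hgh
      exact hjk (hg.symm.trans hh)
    · exact Set.disjoint_left.mp (cell_disjoint hgh) hxg hyh
  · rw [← cake_eq]
    ext x
    simp only [part, mem_iUnion, mem_ofPred_eq, exists_prop]
    constructor
    · rintro ⟨_, g, _, h⟩
      exact ⟨g, h⟩
    · rintro ⟨g, h⟩
      exact ⟨_, g, rfl, h⟩

lemma edgeLen_full (g : Fin 9) {X : Set (W → ℝ)} (h : cell g ⊆ X) :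
    edgeLen (Sum.inl g : W) (Sum.inr g) X = 1 := by
  unfold edgeLen
  have : {t : ℝ | t ∈ Icc (0 : ℝ) 1 ∧ pt (Sum.inl g : W) (Sum.inr g) t ∈ X} = Icc 0 1 := by
    ext t
    simp only [mem_ofPred_eq, and_iff_left_iff_imp]
    exact fun ht => h (pendant_mem_cell g ht)
  rw [this]
  simp

lemma bundle_sum (i j : Fin 3) : ∑ g : Fin 9, (if bundle i g = j then val i g else 0) = 40 := by
  revert i j; decide

lemma part_value (i j : Fin 3) : 40 ≤ agent i (part i j) := by
  have h1 : ((∑ g : Fin 9, (if bundle i g = j then val i g else 0) : ℕ) : ℝ) = 40 := by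
    rw [bundle_sum i j]; norm_num
  rw [← h1]
  unfold agent
  push_cast
  refine Finset.sum_le_sum (fun g _ => ?_)
  by_cases h : bundle i g = j
  · have hsub : cell g ⊆ part i j := subset_biUnion_of_mem (u := cell) h
    rw [edgeLen_full g hsub]
    simp [h]
  · simp only [h, if_false]
    exact mul_nonneg (Nat.cast_nonneg _) (edgeLen_nonneg _ _ _)

/-! ### Connected pieces of large value -/

lemma piece_subset {G : SimpleGraph V} {X : Set (V → ℝ)} (h : IsPiece G X) : X ⊆ cake G := by
  obtain ⟨F, _, hF, rfl⟩ := h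
  apply sUnion_subset
  intro s hs
  obtain ⟨u, v, huv, I, hI, _, rfl⟩ := hF s hs
  rintro _ ⟨t, ht, rfl⟩
  exact ⟨u, v, huv, t, hI ht, rfl⟩

lemma cake_cases {x : W → ℝ} (hx : x ∈ cake Gr) :
    (∃ h, ∃ t ∈ Icc (0 : ℝ) 1, x = pt (Sum.inl h : W) (Sum.inr h) t) ∨
    (∃ h b, b ≠ h ∧ ∃ t ∈ Icc (0 : ℝ) (1 / 2), x = pt (Sum.inl h : W) (Sum.inl b) t) := by
  rw [← cake_eq, mem_iUnion] at hx
  obtain ⟨h, hx⟩ := hx
  obtain ⟨b, hb⟩ := mem_iUnion.mp hx
  unfold arc at hb
  split_ifs at hb with hbg
  · obtain ⟨t, ht, rfl⟩ := hb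
    exact Or.inl ⟨h, t, ht, rfl⟩
  · obtain ⟨t, ht, rfl⟩ := hb
    refine Or.inr ⟨h, b, hbg, t, ?_, rfl⟩
    unfold J at ht
    split_ifs at ht
    · exact ht
    · exact ⟨ht.1, ht.2.le⟩

/-- The hub `g` as a point of the cake. -/
def hub (g : Fin 9) : W → ℝ := pt (Sum.inl g : W) (Sum.inr g) 0

lemma inr_pendant (h g : Fin 9) (t : ℝ) :
    pt (Sum.inl h : W) (Sum.inr h) t (Sum.inr g) = t * (if g = h then 1 else 0) := by
  simp only [pt_apply, reduceCtorEq, Sum.inr.injEq, if_false]
  ring

lemma inr_hub (h b g : Fin 9) (t : ℝ) :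
    pt (Sum.inl h : W) (Sum.inl b) t (Sum.inr g) = 0 := by
  simp [pt_apply]

lemma m_eq_one {x : W → ℝ} (hx : x ∈ cake Gr) {g : Fin 9} (h : 0 < x (Sum.inr g)) :
    m g x = 1 := by
  rcases cake_cases hx with ⟨k, t, _, rfl⟩ | ⟨k, b, _, t, _, rfl⟩
  · rw [inr_pendant] at h
    rw [m_pendant]
    by_cases hg : g = k
    · rw [if_pos hg]
    · rw [if_neg hg] at h
      simp at h
  · rw [inr_hub] at h
    exact absurd h (lt_irrefl _)

lemma trichotomy {x : W → ℝ} (hx : x ∈ cake Gr) (g : Fin 9) :
    0 < x (Sum.inr g) ∨ m g x < 1 ∨ x = hub g := by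
  rcases cake_cases hx with ⟨k, t, ht, rfl⟩ | ⟨k, b, hb, t, ht, rfl⟩
  · rw [inr_pendant, m_pendant]
    by_cases hg : g = k
    · subst hg
      rcases eq_or_lt_of_le ht.1 with h | h
      · right; right
        rw [← h]
        rfl
      · left
        simpa using h
    · right; left
      rw [if_neg hg]
      norm_num
  · right
    rw [m_hub]
    by_cases hg : g = k
    · subst hg
      rcases eq_or_lt_of_le ht.1 with h | h
      · right
        rw [← h]
        exact pt_zero _ _ _
      · left
        rw [if_pos rfl, if_neg (Ne.symm hb)]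
        linarith
    · left
      rw [if_neg hg]
      split_ifs <;> linarith [ht.2]

/-- A connected piece that avoids the hub `g` and meets its pendant edge lies inside this
pendant edge. -/
lemma conn_inside {A : Set (W → ℝ)} (hA : A ⊆ cake Gr) (hc : IsConn A) {g : Fin 9}
    (hg : hub g ∉ A) {t : ℝ} (_ht : t ∈ Icc (0 : ℝ) 1)
    (htA : pt (Sum.inl g : W) (Sum.inr g) t ∈ A) : ∀ x ∈ A, 0 < x (Sum.inr g) := by
  have hpc : IsPreconnected A := by
    have : IsPathConnected A := ⟨_, htA, fun {y} hy => hc _ htA y hy⟩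
    exact this.isConnected.isPreconnected
  by_contra hcon
  push Not at hcon
  obtain ⟨x, hxA, hx⟩ := hcon
  have hU : IsOpen {x : W → ℝ | 0 < x (Sum.inr g)} :=
    isOpen_lt continuous_const (continuous_apply _)
  have hV : IsOpen {x : W → ℝ | m g x < 1} :=
    isOpen_lt (by unfold m; fun_prop) continuous_const
  have hcov : A ⊆ {x : W → ℝ | 0 < x (Sum.inr g)} ∪ {x : W → ℝ | m g x < 1} := by
    intro y hy
    rcases trichotomy (hA hy) g with h | h | h
    · exact Or.inl h
    · exact Or.inr h
    · exact absurd (h ▸ hy) hg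
  have h1 : (A ∩ {x : W → ℝ | 0 < x (Sum.inr g)}).Nonempty := by
    refine ⟨_, htA, ?_⟩
    rcases trichotomy (hA htA) g with h | h | h
    · exact h
    · rw [m_pendant, if_pos rfl] at h
      exact absurd h (lt_irrefl _)
    · exact absurd (h ▸ htA) hg
  have h2 : (A ∩ {x : W → ℝ | m g x < 1}).Nonempty := by
    refine ⟨x, hxA, ?_⟩
    rcases trichotomy (hA hxA) g with h | h | h
    · exact absurd h (not_lt.mpr hx)
    · exact h
    · exact absurd (h ▸ hxA) hg
  obtain ⟨y, hyA, hy1, hy2⟩ := hpc _ _ hU hV hcov h1 h2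
  have h3 := m_eq_one (hA hyA) hy1
  have h4 : m g y < 1 := hy2
  linarith

lemma edgeLen_zero_of_empty (g : Fin 9) {A : Set (W → ℝ)}
    (h : ∀ t ∈ Icc (0 : ℝ) 1, pt (Sum.inl g : W) (Sum.inr g) t ∉ A) :
    edgeLen (Sum.inl g : W) (Sum.inr g) A = 0 := by
  unfold edgeLen
  have : {t : ℝ | t ∈ Icc (0 : ℝ) 1 ∧ pt (Sum.inl g : W) (Sum.inr g) t ∈ A} = ∅ := by
    ext t
    simp only [mem_ofPred_eq, mem_empty_iff_false, iff_false, not_and]
    exact h t
  rw [this]
  simp

open Classical in
lemma value_le {A : Set (W → ℝ)} (hA : IsPiece Gr A) (hc : IsConn A) (i : Fin 3)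
    (hv : 26 < agent i A) :
    agent i A ≤ ((∑ g : Fin 9, (if hub g ∈ A then val i g else 0) : ℕ) : ℝ) := by
  have key : ∀ g : Fin 9, hub g ∉ A → edgeLen (Sum.inl g : W) (Sum.inr g) A = 0 := by
    intro g hg
    apply edgeLen_zero_of_empty
    intro t ht htA
    have h1 := conn_inside (piece_subset hA) hc hg ht htA
    have h2 : ∀ k : Fin 9, k ≠ g → edgeLen (Sum.inl k : W) (Sum.inr k) A = 0 := by
      intro k hk
      apply edgeLen_zero_of_empty
      intro s _ hsA
      have h3 := h1 _ hsA
      rw [inr_pendant, if_neg (Ne.symm hk)] at h3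
      simp at h3
    have h4 : agent i A = (val i g : ℝ) * edgeLen (Sum.inl g : W) (Sum.inr g) A := by
      unfold agent
      rw [Finset.sum_eq_single g]
      · intro k _ hk
        rw [h2 k hk, mul_zero]
      · intro h
        exact absurd (Finset.mem_univ g) h
    have h5 : (val i g : ℝ) ≤ 26 := by exact_mod_cast val_le i g
    have h6 := edgeLen_le_one (Sum.inl g : W) (Sum.inr g) A
    have h7 := edgeLen_nonneg (Sum.inl g : W) (Sum.inr g) A
    have h8 : (0 : ℝ) ≤ (val i g : ℝ) := Nat.cast_nonneg _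
    nlinarith
  unfold agent
  push_cast
  refine Finset.sum_le_sum (fun g _ => ?_)
  by_cases h : hub g ∈ A
  · rw [if_pos h]
    have h6 := edgeLen_le_one (Sum.inl g : W) (Sum.inr g) A
    have h8 : (0 : ℝ) ≤ (val i g : ℝ) := Nat.cast_nonneg _
    nlinarith
  · rw [if_neg h, key g h, mul_zero]

/-! ### The finite check -/

/-- Run over all ways to distribute the listed pendant edges among the three agents. -/
def check : List (Fin 9) → ℕ → ℕ → ℕ → Bool
  | [], a, b, c => decide (a ≤ 39) || (decide (b ≤ 39) || decide (c ≤ 39))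
  | g :: l, a, b, c =>
    check l (a + val 0 g) b c && (check l a (b + val 1 g) c && check l a b (c + val 2 g))

lemma check_spec (f : Fin 9 → Fin 3) : ∀ (l : List (Fin 9)) (a b c : ℕ), check l a b c = true →
    a + (l.map (fun g => if f g = 0 then val 0 g else 0)).sum ≤ 39 ∨
    b + (l.map (fun g => if f g = 1 then val 1 g else 0)).sum ≤ 39 ∨
    c + (l.map (fun g => if f g = 2 then val 2 g else 0)).sum ≤ 39 := by
  intro l
  induction l with
  | nil =>
    intro a b c h
    simpa [check] using h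
  | cons g l ih =>
    intro a b c h
    simp only [check, Bool.and_eq_true] at h
    obtain ⟨h0, h1, h2⟩ := h
    simp only [List.map_cons, List.sum_cons]
    have hf : f g = 0 ∨ f g = 1 ∨ f g = 2 := by
      generalize f g = k
      revert k; decide
    rcases hf with hf | hf | hf
    · have := ih _ _ _ h0
      simp only [hf, if_true, show ((0 : Fin 3) = 1) = False by decide,
        show ((0 : Fin 3) = 2) = False by decide, if_false]
      omega
    · have := ih _ _ _ h1
      simp only [hf, if_true, show ((1 : Fin 3) = 0) = False by decide,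
        show ((1 : Fin 3) = 2) = False by decide, if_false]
      omega
    · have := ih _ _ _ h2
      simp only [hf, if_true, show ((2 : Fin 3) = 0) = False by decide,
        show ((2 : Fin 3) = 1) = False by decide, if_false]
      omega

lemma check_true : check [0, 1, 2, 3, 4, 5, 6, 7, 8] 0 0 0 = true := by
  decide +kernel

lemma discrete (f : Fin 9 → Fin 3) :
    ∃ i : Fin 3, ∑ g : Fin 9, (if f g = i then val i g else 0) ≤ 39 := by
  have h := check_spec f _ 0 0 0 check_true
  simp only [List.map_cons, List.map_nil, List.sum_cons, List.sum_nil, zero_add] at h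
  simp only [Fin.sum_univ_succ, Fin.sum_univ_zero]
  rcases h with h | h | h
  · refine ⟨0, ?_⟩
    simpa using h
  · refine ⟨1, ?_⟩
    simpa using h
  · refine ⟨2, ?_⟩
    simpa using h

/-! ### The maximin shares and the theorem -/

lemma agent_union (i : Fin 3) {X Y : Set (W → ℝ)} (hY : MeasurableSet Y) (h : Disjoint X Y) :
    agent i (X ∪ Y) = agent i X + agent i Y := by
  unfold agent
  rw [← Finset.sum_add_distrib]
  refine Finset.sum_congr rfl (fun g _ => ?_)
  rw [edgeLen_union _ _ hY h]
  ring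

lemma agent_le (i : Fin 3) (X : Set (W → ℝ)) : agent i X ≤ 120 := by
  have h1 : ((∑ g : Fin 9, val i g : ℕ) : ℝ) = 120 := by
    have : ∑ g : Fin 9, val i g = 120 := by revert i; decide
    rw [this]; norm_num
  rw [← h1]
  unfold agent
  push_cast
  refine Finset.sum_le_sum (fun g _ => ?_)
  have h6 := edgeLen_le_one (Sum.inl g : W) (Sum.inr g) X
  have h8 : (0 : ℝ) ≤ (val i g : ℝ) := Nat.cast_nonneg _
  nlinarith

lemma le_forty {i : Fin 3} {P : Fin 3 → Set (W → ℝ)} (hP : IsPartition Gr P) {x : ℝ}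
    (hx : ∀ j, x ≤ agent i (P j)) : x ≤ 40 := by
  obtain ⟨⟨hp, _, hd⟩, _⟩ := hP
  have h1 : agent i (P 0 ∪ P 1) = agent i (P 0) + agent i (P 1) :=
    agent_union i (piece_measurable (hp 1)) (hd 0 1 (by decide))
  have h2 : agent i ((P 0 ∪ P 1) ∪ P 2) = agent i (P 0 ∪ P 1) + agent i (P 2) :=
    agent_union i (piece_measurable (hp 2)) (by
      rw [Set.disjoint_union_left]
      exact ⟨hd 0 2 (by decide), hd 1 2 (by decide)⟩)
  have h3 := agent_le i ((P 0 ∪ P 1) ∪ P 2)
  have h4 := hx 0
  have h5 := hx 1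
  have h6 := hx 2
  linarith

lemma mms_eq (i : Fin 3) : mms Gr (agent i) 3 = 40 := by
  have h : IsGreatest {m | ∃ P : Fin 3 → Set (W → ℝ), IsPartition Gr P ∧
      ∀ j, m ≤ agent i (P j)} 40 :=
    ⟨⟨part i, part_partition i, part_value i⟩, fun x ⟨_, hP, hx⟩ => le_forty hP hx⟩
  exact h.csSup_eq

/-- In every allocation some agent gets a piece of value at most `39`. -/
lemma some_agent_poor {A : Fin 3 → Set (W → ℝ)} (hA : IsAllocation Gr A) :
    ∃ i, agent i (A i) ≤ 39 := by
  classical
  by_contra hcon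
  push Not at hcon
  obtain ⟨hp, hc, hd⟩ := hA
  set f : Fin 9 → Fin 3 := fun g => if hub g ∈ A 1 then 1 else if hub g ∈ A 2 then 2 else 0
    with hf
  have hfi : ∀ i g, hub g ∈ A i → f g = i := by
    intro i g hg
    have hne : ∀ j, j ≠ i → hub g ∉ A j := fun j hj h =>
      Set.disjoint_left.mp (hd j i hj) h hg
    fin_cases i
    · have h1 := hne 1 (by decide)
      have h2 := hne 2 (by decide)
      simp only [hf, h1, h2, if_false]
      rfl
    · simp only [hf]
      have : hub g ∈ A 1 := hg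
      rw [if_pos this]
      rfl
    · have h1 := hne 1 (by decide)
      have h2 : hub g ∈ A 2 := hg
      simp only [hf, h1, h2, if_false, if_true]
      rfl
  obtain ⟨i, hi⟩ := discrete f
  have h1 := value_le (hp i) (hc i) i (by linarith [hcon i])
  have h2 : ∑ g : Fin 9, (if hub g ∈ A i then val i g else 0) ≤
      ∑ g : Fin 9, (if f g = i then val i g else 0) := by
    refine Finset.sum_le_sum (fun g _ => ?_)
    by_cases h : hub g ∈ A i
    · rw [if_pos h, if_pos (hfi i g h)]
    · rw [if_neg h]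
      exact Nat.zero_le _
  have h3 : ((∑ g : Fin 9, (if hub g ∈ A i then val i g else 0) : ℕ) : ℝ) ≤ 39 := by
    exact_mod_cast h2.trans hi
  linarith [hcon i]

/-- **Q2 of MP_ee2dc8_co, answered positively.**  There are a finite connected graph `G` and three
agents with additive valuations on the cake `G` (nonnegative, monotone, continuous) whose
1-out-of-3 maximin shares are attained and positive, such that in every allocation of pairwise
disjoint connected pieces some agent gets at most `39/40` of her maximin share; in particular no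
allocation gives every agent her maximin share. -/
theorem result : ∃ (V : Type) (_ : Fintype V) (_ : DecidableEq V) (G : SimpleGraph V)
    (v : Fin 3 → Set (V → ℝ) → ℝ),
    G.Connected ∧
    (∀ i, IsAdditiveValuation G (v i)) ∧
    (∀ i, 0 < mms G (v i) 3 ∧
      ∃ P : Fin 3 → Set (V → ℝ), IsPartition G P ∧ ∀ j, mms G (v i) 3 ≤ v i (P j)) ∧
    (∀ A : Fin 3 → Set (V → ℝ), IsAllocation G A → ∃ i, v i (A i) ≤ 39 / 40 * mms G (v i) 3) ∧
    ¬ ∃ A : Fin 3 → Set (V → ℝ), IsAllocation G A ∧ ∀ i, mms G (v i) 3 ≤ v i (A i) := by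
  refine ⟨W, inferInstance, inferInstance, Gr, agent, ?_, agent_additive, ?_, ?_, ?_⟩
  · have hub_reach : ∀ a b : Fin 9, Gr.Reachable (Sum.inl a) (Sum.inl b) := by
      intro a b
      by_cases h : a = b
      · subst h; exact SimpleGraph.Reachable.refl _
      · exact SimpleGraph.Adj.reachable (G := Gr) (u := Sum.inl a) (v := Sum.inl b) h
    have leaf_reach : ∀ a : Fin 9, Gr.Reachable (Sum.inl a) (Sum.inr a) := fun a =>
      SimpleGraph.Adj.reachable (G := Gr) (u := Sum.inl a) (v := Sum.inr a) rfl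
    refine { preconnected := ?_, nonempty := ⟨Sum.inl 0⟩ }
    rintro (a | a) (b | b)
    · exact hub_reach a b
    · exact (hub_reach a b).trans (leaf_reach b)
    · exact (leaf_reach a).symm.trans (hub_reach a b)
    · exact ((leaf_reach a).symm.trans (hub_reach a b)).trans (leaf_reach b)
  · intro i
    rw [mms_eq]
    exact ⟨by norm_num, part i, part_partition i, part_value i⟩
  · intro A hA
    obtain ⟨i, hi⟩ := some_agent_poor hA
    refine ⟨i, ?_⟩
    rw [mms_eq]
    linarith
  · rintro ⟨A, hA, h⟩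
    obtain ⟨i, hi⟩ := some_agent_poor hA
    have := h i
    rw [mms_eq] at this
    linarith

end

end Pool.Agent.Results.MP_ee2dc8_co.NoMmsAllocation
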